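import Pool.Agent.H18.XX.TA
import Pool.Agent.H91.IQ.NUA

/-!
Row NUR of the board exh (MP_0f8dca_lc): estimates for the error terms, after
Pool.Agent.H91.IQ.NUA.
-/

set_option autoImplicit false

namespace Pool.Agent.H86.XX

open Pool.Agent.H78.XQ Pool.Agent.H66.IQ Pool.Agent.H18.XX Pool.Agent.H91.IQ

theorem nur_pos (r : ℕ) : 2 * r ^ 2 = 2 * r + 2 * (r ^ 2 - r) := by
  have h : r ≤ r ^ 2 := by nlinarith [Nat.zero_le r]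
  omega

/-- the linear facts -/
structure B (r l q n a b D k : ℕ) : Prop where
  r_ge : 20 ≤ r
  a_ge : 20 * r ≤ a
  b_ge : 20 * a ≤ b
  l_ge : 16 * b ≤ l
  l_le : l ≤ 16 * (b + 3 * a + 3 * r + 1)
  q_eq : q = 10 * l + 100
  n_ge : 2 * l + 3 * q ≤ n
  D_eq : D + r = a
  k_ge : 8 * k ≤ l
  k_lt : l < 8 * (k + 1)

theorem nur_R (l q R k : ℕ) (hq : q = 10 * l + 100) (hl : 100 ≤ l) (hk2 : l < 8 * (k + 1))
    (hR : R = 512 * (q + 3) ^ 2 * l) : R ≤ 2 ^ (26 + 3 * k) := by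
  have hl2 : l ≤ 2 ^ (3 + k) := by
    have := Nat.lt_two_pow_self (n := k)
    rw [pow_add]
    omega
  have hq2 : q + 3 ≤ 2 ^ (7 + k) := by
    have : q + 3 ≤ 16 * l := by omega
    calc q + 3 ≤ 2 ^ 4 * l := this
      _ ≤ 2 ^ 4 * 2 ^ (3 + k) := Nat.mul_le_mul_left _ hl2
      _ = 2 ^ (7 + k) := by rw [← pow_add]; congr 1; ring
  rw [hR]
  calc 512 * (q + 3) ^ 2 * l ≤ 2 ^ 9 * (2 ^ (7 + k)) ^ 2 * 2 ^ (3 + k) :=
        Nat.mul_le_mul (Nat.mul_le_mul_left _ (Nat.pow_le_pow_left hq2 2)) hl2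
    _ = 2 ^ (26 + 3 * k) := by rw [← pow_mul, ← pow_add, ← pow_add]; congr 1; ring

theorem nur_B {r l q R n : ℕ} (hS : Sz r l q R n) :
    B r l q n (r ^ 2) (r ^ 3) (r ^ 2 - r) (l / 8) ∧ 1 ≤ R ∧ R ≤ 2 ^ (26 + 3 * (l / 8)) := by
  obtain ⟨hr, hl, hlu, hq, hR, hn⟩ := hS
  have hr3 : 20 * r ^ 2 ≤ r ^ 3 := by
    rw [pow_succ r 2, mul_comm (r ^ 2) r]
    exact Nat.mul_le_mul_right _ hr
  have hr2 : 20 * r ≤ r ^ 2 := by
    rw [pow_two]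
    exact Nat.mul_le_mul_right _ hr
  have hR1 : 1 ≤ R := by
    rw [hR]
    have h1 : 0 < (q + 3) ^ 2 := by positivity
    have h2 : 0 < 512 * (q + 3) ^ 2 * l := by
      apply Nat.mul_pos (Nat.mul_pos (by norm_num) h1)
      omega
    omega
  have hnl : 2 * l + 3 * q ≤ n := by
    rw [hn]
    exact Nat.le_mul_of_pos_left _ hR1
  have hcube : (r + 1) ^ 3 = r ^ 3 + 3 * r ^ 2 + 3 * r + 1 := by ring
  rw [hcube] at hlu
  refine ⟨⟨hr, hr2, hr3, hl, hlu, hq, hnl, by omega, Nat.mul_div_le l 8, by omega⟩, hR1, ?_⟩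
  exact nur_R l q R _ hq (by omega) (by omega) hR

theorem nur_4 (r : ℕ) : (4 : ℕ) ^ r ^ 2 = 2 ^ (2 * r ^ 2) := by
  rw [pow_mul]
  norm_num

theorem nur_128 (r : ℕ) : (128 * 4 ^ r ^ 2) ^ (r + 4) = 2 ^ (2 * r ^ 3 + 8 * r ^ 2 + 7 * r + 28) := by
  rw [nur_4, show 128 = 2 ^ 7 by norm_num, ← pow_add, ← pow_mul]
  congr 1
  ring

theorem nur_128b (r : ℕ) : (128 * 4 ^ r ^ 2) ^ (2 * (r + 4)) =
    2 ^ (4 * r ^ 3 + 16 * r ^ 2 + 14 * r + 56) := by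
  rw [nur_4, show 128 = 2 ^ 7 by norm_num, ← pow_add, ← pow_mul]
  congr 1
  ring

theorem nur_s1 (c a x D : ℕ) (w : ℕ) (hx : x = 2 ^ (2 * D)) (hw : w = 2 ^ (2 * a)) :
    2 ^ c * (4003 * x ^ 2 * (x + 1) * w ^ 2) ≤ 2 ^ (c + 12 + 4 * D + (2 * D + 1) + 4 * a) := by
  have hx1 : x + 1 ≤ 2 ^ (2 * D + 1) := by
    rw [pow_succ, ← hx]
    have : 1 ≤ x := hx ▸ Nat.one_le_two_pow
    omega
  calc 2 ^ c * (4003 * x ^ 2 * (x + 1) * w ^ 2)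
      ≤ 2 ^ c * (2 ^ 12 * (2 ^ (2 * D)) ^ 2 * 2 ^ (2 * D + 1) * (2 ^ (2 * a)) ^ 2) := by
        rw [← hx, ← hw]
        gcongr
        norm_num
    _ = _ := by
        rw [← pow_mul, ← pow_mul, ← pow_add, ← pow_add, ← pow_add, ← pow_add]
        congr 1
        ring

theorem nur_t1 (r l q n a b D k x w : ℕ) (hB : B r l q n a b D k) (hx : x = 2 ^ (2 * D))
    (hw : w = 2 ^ (2 * a)) :
    2 ^ (2 * l) * (2 ^ (4 * b + 16 * a + 14 * r + 56) * (4003 * x ^ 2 * (x + 1) * w ^ 2)) *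
      2 ^ (b + 4) ≤ 2 ^ (q / 4) := by
  obtain ⟨h1, h2, h3, h4, h5, h6, h7, h8, h9, h10⟩ := hB
  calc _ ≤ 2 ^ (2 * l) * 2 ^ ((4 * b + 16 * a + 14 * r + 56) + 12 + 4 * D + (2 * D + 1) +
        4 * a) * 2 ^ (b + 4) :=
        Nat.mul_le_mul_right _ (Nat.mul_le_mul_left _ (nur_s1 _ a x D w hx hw))
    _ = 2 ^ (2 * l + ((4 * b + 16 * a + 14 * r + 56) + 12 + 4 * D + (2 * D + 1) +
        4 * a) + (b + 4)) := by rw [← pow_add, ← pow_add]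
    _ ≤ 2 ^ (q / 4) := by
        refine Nat.pow_le_pow_right (by norm_num) ?_
        omega

theorem nur_t0 (r l q n a b D k x w : ℕ) (hB : B r l q n a b D k) (hx : x = 2 ^ (2 * D))
    (hw : w = 2 ^ (2 * a)) :
    2 ^ (4 * b + 16 * a + 14 * r + 56) * (4000 * x ^ 2 * (x + 1) * w ^ 2) ≤ 2 ^ (q / 4) := by
  obtain ⟨h1, h2, h3, h4, h5, h6, h7, h8, h9, h10⟩ := hB
  calc _ ≤ 2 ^ (4 * b + 16 * a + 14 * r + 56) * (4003 * x ^ 2 * (x + 1) * w ^ 2) := by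
        gcongr
        norm_num
    _ ≤ _ := nur_s1 _ a x D w hx hw
    _ ≤ 2 ^ (q / 4) := by
        refine Nat.pow_le_pow_right (by norm_num) ?_
        omega

theorem nur_t2 (r l q n a b D k R w : ℕ) (hB : B r l q n a b D k) (hR : R ≤ 2 ^ (26 + 3 * k))
    (hw : w = 2 ^ (2 * a)) :
    1000 * w ^ 2 * (R * 2 ^ (2 * b + 8 * a + 7 * r + 28)) * 2 ^ (b + 4) ≤ 2 ^ l := by
  obtain ⟨h1, h2, h3, h4, h5, h6, h7, h8, h9, h10⟩ := hB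
  calc 1000 * w ^ 2 * (R * 2 ^ (2 * b + 8 * a + 7 * r + 28)) * 2 ^ (b + 4)
      ≤ 2 ^ 10 * (2 ^ (2 * a)) ^ 2 * (2 ^ (26 + 3 * k) *
        2 ^ (2 * b + 8 * a + 7 * r + 28)) * 2 ^ (b + 4) := by
        rw [hw]
        gcongr
        norm_num
    _ = 2 ^ (10 + 4 * a + (26 + 3 * k) + (2 * b + 8 * a + 7 * r + 28) + (b + 4)) := by
        rw [← pow_mul, ← pow_add, ← pow_add, ← pow_add, ← pow_add]
        congr 1
        ring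
    _ ≤ 2 ^ l := Nat.pow_le_pow_right (by norm_num) (by omega)

theorem nur_t3 (r l q n a b D k : ℕ) (hB : B r l q n a b D k) :
    2 * 2 ^ (2 * b + 8 * a + 7 * r + 28) * 2 ^ (2 * (b + 4 * a + 14)) ≤ 2 ^ n := by
  obtain ⟨h1, h2, h3, h4, h5, h6, h7, h8, h9, h10⟩ := hB
  calc 2 * 2 ^ (2 * b + 8 * a + 7 * r + 28) * 2 ^ (2 * (b + 4 * a + 14))
      = 2 ^ (1 + (2 * b + 8 * a + 7 * r + 28) + 2 * (b + 4 * a + 14)) := by
        rw [pow_add 2 (1 + (2 * b + 8 * a + 7 * r + 28)), pow_add 2 1, pow_one]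
    _ ≤ 2 ^ n := Nat.pow_le_pow_right (by norm_num) (by omega)

theorem nur_t4 (r l q n a b D k w : ℕ) (hB : B r l q n a b D k) (hw : w = 2 ^ (2 * a)) :
    1000 * w ^ 2 * 2 ^ (2 * b + 8 * a + 7 * r + 28) * 2 ^ (b + 4) ≤ 2 ^ n := by
  obtain ⟨h1, h2, h3, h4, h5, h6, h7, h8, h9, h10⟩ := hB
  calc 1000 * w ^ 2 * 2 ^ (2 * b + 8 * a + 7 * r + 28) * 2 ^ (b + 4)
      ≤ 2 ^ 10 * (2 ^ (2 * a)) ^ 2 * 2 ^ (2 * b + 8 * a + 7 * r + 28) * 2 ^ (b + 4) := by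
        rw [hw]
        gcongr
        norm_num
    _ = 2 ^ (10 + 4 * a + (2 * b + 8 * a + 7 * r + 28) + (b + 4)) := by
        rw [← pow_mul, ← pow_add, ← pow_add, ← pow_add]
        congr 1
        ring
    _ ≤ 2 ^ n := Nat.pow_le_pow_right (by norm_num) (by omega)

theorem nur_ex (r l q n a b D k x y : ℕ) (hB : B r l q n a b D k) (hx : 1 ≤ x)
    (hy : 100 * (b + 3 * a + 3 * r + 1) ≤ y) :
    5 + 2 * l + (4 * b + 16 * a + 14 * r + 56) + 2 * (q + 1) + x +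
      (x + 1) * (r + 4) + (8 * y + 3) ≤ x * (y * y) := by
  obtain ⟨h1, h2, h3, h4, h5, h6, h7, h8, h9, h10⟩ := hB
  have e1 : (x + 1) * (r + 4) = x * (r + 4) + (r + 4) := by ring
  have e2 : x * (r + 5 + 20 * y) ≤ x * (y * y) := by
    apply Nat.mul_le_mul_left
    have h3 : 100 * y ≤ y * y := Nat.mul_le_mul_right _ (by omega)
    omega
  have e3 : x * (r + 5 + 20 * y) = x * (r + 4) + x + x * (20 * y) := by ring
  have e4 : 20 * y ≤ x * (20 * y) := Nat.le_mul_of_pos_left _ hx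
  rw [e1]
  generalize x * (r + 4) = z1 at *
  generalize x * (20 * y) = z2 at *
  generalize x * (y * y) = z3 at *
  rw [e3] at e2
  omega

theorem nur_hx2 (x r : ℕ) : (2 ^ x + 1) ^ (r + 4) ≤ 2 ^ ((x + 1) * (r + 4)) := by
  rw [pow_mul]
  apply Nat.pow_le_pow_left
  rw [pow_succ]
  have : 1 ≤ 2 ^ x := Nat.one_le_two_pow
  omega

theorem nur_u1 (r l q c x e M : ℕ)
    (h : 5 + 2 * l + c + 2 * (q + 1) + x + (x + 1) * (r + 4) + e ≤ M) :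
    8 * (2 ^ (2 * l) * (4 * (2 ^ c * ((2 * 2 ^ q) ^ 2 * 2 ^ x * (2 ^ x + 1) ^ (r + 4))))) *
      2 ^ e ≤ 2 ^ M := by
  have hx2 := nur_hx2 x r
  calc 8 * (2 ^ (2 * l) * (4 * (2 ^ c * ((2 * 2 ^ q) ^ 2 * 2 ^ x * (2 ^ x + 1) ^ (r + 4))))) *
        2 ^ e
      ≤ 2 ^ 3 * (2 ^ (2 * l) * (2 ^ 2 * (2 ^ c *
        ((2 ^ 1 * 2 ^ q) ^ 2 * 2 ^ x * 2 ^ ((x + 1) * (r + 4)))))) * 2 ^ e := by
        rw [pow_one]
        gcongr
        · norm_num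
        · norm_num
    _ = 2 ^ (5 + 2 * l + c + 2 * (q + 1) + x + (x + 1) * (r + 4) + e) := by
        rw [← pow_add 2 1 q, ← pow_mul, ← pow_add, ← pow_add, ← pow_add, ← pow_add, ← pow_add,
          ← pow_add, ← pow_add]
        congr 1
        ring
    _ ≤ 2 ^ M := Nat.pow_le_pow_right (by norm_num) h

theorem nur_u2 (r l q : ℕ) (h : (r + 3) + (l + 4) ≤ q - 2) :
    5 + 2 * l + (2 ^ (r + 3) + 3) ≤ 2 ^ (q - 2) := by
  have h2 : 2 ^ (r + 3) * 2 ^ (l + 4) ≤ 2 ^ (q - 2) := by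
    rw [← pow_add]
    exact Nat.pow_le_pow_right (by norm_num) h
  have h3 := Nat.lt_two_pow_self (n := l)
  have h4 : 2 ^ (l + 4) = 16 * 2 ^ l := by
    rw [pow_add]
    ring
  generalize 2 ^ (q - 2) = Q at *
  generalize 2 ^ (l + 4) = B at *
  generalize 2 ^ l = L at *
  have h6 : 1 ≤ 2 ^ (r + 3) := Nat.one_le_two_pow
  generalize 2 ^ (r + 3) = A at *
  obtain ⟨a, rfl⟩ := Nat.exists_eq_add_of_le h6
  subst h4
  nlinarith [Nat.zero_le (a * L), Nat.zero_le a]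

theorem nur_u2' (l e Q : ℕ) (h : 5 + 2 * l + e ≤ Q) : 8 * (2 ^ (2 * l) * 4) * 2 ^ e ≤ 2 ^ Q := by
  calc 8 * (2 ^ (2 * l) * 4) * 2 ^ e = 2 ^ (5 + 2 * l + e) := by
        rw [pow_add 2 (5 + 2 * l), pow_add 2 5]
        ring
    _ ≤ 2 ^ Q := Nat.pow_le_pow_right (by norm_num) h

theorem nur_u3 (r x e M : ℕ) (h : 1 + x + (x + 1) * (r + 4) + e ≤ M) :
    2 * 2 ^ x * (2 ^ x + 1) ^ (r + 4) * 2 ^ e ≤ 2 ^ M := by
  have hx2 := nur_hx2 x r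
  calc 2 * 2 ^ x * (2 ^ x + 1) ^ (r + 4) * 2 ^ e
      ≤ 2 ^ 1 * 2 ^ x * 2 ^ ((x + 1) * (r + 4)) * 2 ^ e := by
        rw [pow_one]
        gcongr
    _ = 2 ^ (1 + x + (x + 1) * (r + 4) + e) := by
        rw [← pow_add, ← pow_add, ← pow_add]
    _ ≤ 2 ^ M := Nat.pow_le_pow_right (by norm_num) h

theorem nur_u4 (R n l e : ℕ) (hR1 : 1 ≤ R) (hn : 2 * l + 2 ≤ n)
    (h2 : e + 2 ≤ 2 ^ (n - 2 * l - 2)) :
    4 * Real.exp (-(2 ^ n * ((R : ℝ) / 2 ^ l) ^ 2 / 4)) ≤ (1 / 2) ^ e := by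
  have h1 : Real.exp (-(2 ^ n * ((R : ℝ) / 2 ^ l) ^ 2 / 4)) ≤ (1 / 2) ^ (e + 2) := by
    apply nua_exp
    have hR1' : (1 : ℝ) ≤ R := by exact_mod_cast hR1
    have h3 : ((2 ^ (n - 2 * l - 2) : ℕ) : ℝ) ≤ 2 ^ n * ((R : ℝ) / 2 ^ l) ^ 2 / 4 := by
      obtain ⟨m, hm⟩ : ∃ m, n = m + 2 * l + 2 := ⟨n - 2 * l - 2, by omega⟩
      rw [show n - 2 * l - 2 = m by omega, hm]
      have e2 : (2 : ℝ) ^ (m + 2 * l + 2) * ((R : ℝ) / 2 ^ l) ^ 2 / 4 = 2 ^ m * (R : ℝ) ^ 2 := by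
        rw [pow_add, pow_add, pow_mul, div_pow]
        have : ((2 : ℝ) ^ 2) ^ l = (2 ^ l) ^ 2 := by rw [← pow_mul, ← pow_mul, mul_comm]
        rw [this]
        field_simp
        norm_num
      rw [e2]
      push_cast
      have h4 : (1 : ℝ) ≤ (R : ℝ) ^ 2 := one_le_pow₀ hR1'
      have h5 : (0 : ℝ) < 2 ^ m := by positivity
      nlinarith
    exact le_trans (by exact_mod_cast h2) h3
  calc 4 * Real.exp (-(2 ^ n * ((R : ℝ) / 2 ^ l) ^ 2 / 4)) ≤ 4 * (1 / 2) ^ (e + 2) :=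
        mul_le_mul_of_nonneg_left h1 (by norm_num)
    _ = (1 / 2) ^ e := by
        rw [pow_add _ e 2]
        norm_num
        ring

theorem nur_u5 (l e : ℕ) (hl : 1 ≤ l) (h : e ≤ 2 ^ (l - 1)) :
    Real.exp (-((2 : ℝ) ^ l / 2)) ≤ (1 / 2) ^ e := by
  apply nua_exp
  have h2 : (2 : ℝ) ^ l / 2 = ((2 ^ (l - 1) : ℕ) : ℝ) := by
    obtain ⟨m, hm⟩ : ∃ m, l = m + 1 := ⟨l - 1, by omega⟩
    rw [hm, Nat.add_sub_cancel, pow_succ]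
    push_cast
    ring
  rw [h2]
  exact_mod_cast h

theorem nur_dbl (r m : ℕ) (h : r + 3 + 1 ≤ m) : 2 ^ (r + 3) + 5 ≤ 2 ^ m := by
  have h6 : 2 ^ (r + 3 + 1) ≤ 2 ^ m := Nat.pow_le_pow_right (by norm_num) h
  have h7 : 2 ^ 3 ≤ 2 ^ (r + 3) := Nat.pow_le_pow_right (by norm_num) (by omega)
  rw [pow_succ] at h6
  omega

theorem nur_t3' (a b r n : ℕ) (h1 : 2 * 2 ^ (2 * b + 8 * a + 7 * r + 28) *
    2 ^ (2 * (b + 4 * a + 14)) ≤ 2 ^ n) (w : ℝ) (hw : w = 2 ^ (2 * a)) :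
    1000 * w ^ 2 * √(2 * (2 : ℝ) ^ (2 * b + 8 * a + 7 * r + 28) / 2 ^ n) ≤
      (1 / 2) ^ (b + 4) := by
  have h1' := nua_frac _ _ _ h1
  have h2 : √(2 * (2 : ℝ) ^ (2 * b + 8 * a + 7 * r + 28) / 2 ^ n) ≤
      (1 / 2) ^ (b + 4 * a + 14) := by
    apply Real.sqrt_le_iff.2
    refine ⟨by positivity, ?_⟩
    rw [← pow_mul, mul_comm (b + 4 * a + 14) 2]
    refine le_trans (le_of_eq ?_) h1'
    push_cast
    ring
  calc 1000 * w ^ 2 * √(2 * (2 : ℝ) ^ (2 * b + 8 * a + 7 * r + 28) / 2 ^ n)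
      ≤ 1024 * w ^ 2 * (1 / 2) ^ (b + 4 * a + 14) := by
        gcongr
        norm_num
    _ = (1 / 2) ^ (b + 4) := by
        rw [hw, show b + 4 * a + 14 = (b + 4) + (4 * a) + 10 by ring,
          pow_add _ (b + 4 + 4 * a) 10, pow_add _ (b + 4) (4 * a)]
        have h3 : ((2 : ℝ) ^ (2 * a)) ^ 2 * (1 / 2) ^ (4 * a) = 1 := by
          rw [← pow_mul, show 2 * a * 2 = 4 * a by ring, ← mul_pow]
          norm_num
        linear_combination (1 / 2 : ℝ) ^ (b + 4) * h3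

theorem nur_fin (Y a b c d e : ℝ) (hY : 0 ≤ Y) (ha : a ≤ Y) (hb : b ≤ Y) (hc : c ≤ Y)
    (hd : d ≤ Y) (he : e ≤ Y) : a + b + c + d + e ≤ 8 * Y := by
  linarith

theorem pf_NUR : T_NUR := by
  intro r l q R n hS w S L e₁ ε₂ hw hSS hL he₁ hε₂
  obtain ⟨hB, hR1, hR2⟩ := nur_B hS
  have hr := hS.r_ge
  have hy0 := nua_pow r hr
  have hcube : (r + 1) ^ 3 = r ^ 3 + 3 * r ^ 2 + 3 * r + 1 := by ring
  rw [hcube] at hy0
  have hx : bd r = 2 ^ (2 * (r ^ 2 - r)) := rfl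
  have hx1 : 1 ≤ bd r := by
    rw [hx]
    exact Nat.one_le_two_pow
  have h4x : 4 ^ r ^ 2 = bd r * (2 ^ r * 2 ^ r) := by
    rw [nur_4, nur_pos, hx, ← pow_add, ← pow_add]
    congr 1
    ring
  have hex := nur_ex r l q n _ _ _ _ (bd r) (2 ^ r) hB hx1 hy0
  rw [← h4x] at hex
  have h8y : 2 ^ (r + 3) = 8 * 2 ^ r := by
    rw [pow_add]
    ring
  rw [← h8y] at hex
  have t1 := nua_frac _ _ _ (nur_t1 r l q n _ _ _ _ (bd r) _ hB hx (nur_4 r))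
  have t2 := nua_frac _ _ _ (nur_t2 r l q n _ _ _ _ R _ hB hR2 (nur_4 r))
  have t3 := nur_t3' _ _ r n (nur_t3 r l q n _ _ _ _ hB) w (by
    rw [hw, nur_4]
    push_cast
    rfl)
  have t4 := nua_frac _ _ _ (nur_t4 r l q n _ _ _ _ _ hB (nur_4 r))
  have u1 := nua_frac _ _ _ (nur_u1 r l q _ (bd r) (2 ^ (r + 3) + 3) _ hex)
  have hB' := hB
  obtain ⟨k1, k2, k3, k4, k5, k6, k7, k8, k9, k10⟩ := hB'
  have hql : (r + 3) + (l + 4) ≤ q - 2 := by omega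
  have hln : r + 3 + 1 ≤ n - 2 * l - 2 := by omega
  have hln' : 2 * l + 2 ≤ n := by omega
  have hl1 : r + 3 + 1 ≤ l - 1 := by omega
  have hl0 : 1 ≤ l := by omega
  have u2 := nua_frac _ _ _ (nur_u2' l _ _ (nur_u2 r l q hql))
  have hex3 : 1 + bd r + (bd r + 1) * (r + 4) + (2 ^ (r + 3) + 3) ≤ 4 ^ r ^ 2 := by
    refine le_trans ?_ hex
    generalize (bd r + 1) * (r + 4) = z
    generalize 2 ^ (r + 3) = z2
    omega
  have u3 := nua_frac _ _ _ (nur_u3 r (bd r) (2 ^ (r + 3) + 3) _ hex3)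
  have u4 := nur_u4 R n l (2 ^ (r + 3) + 3) hR1 hln' (nur_dbl r _ hln)
  have u5 := nur_u5 l (2 ^ (r + 3) + 3) hl0
    (le_trans (Nat.add_le_add_left (by norm_num) _) (nur_dbl r _ hl1))
  have t0 := nur_t0 r l q n _ _ _ _ (bd r) _ hB hx (nur_4 r)
  have c128 : (128 * w) ^ (r + 4) = 2 ^ (2 * r ^ 3 + 8 * r ^ 2 + 7 * r + 28) := by
    rw [hw]
    exact_mod_cast nur_128 r
  have c128b : (128 * w) ^ (2 * (r + 4)) = 2 ^ (4 * r ^ 3 + 16 * r ^ 2 + 14 * r + 56) := by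
    rw [hw]
    exact_mod_cast nur_128b r
  clear k1 k2 k3 k4 k5 k6 k7 k8 k9 k10 hql hln hln' hl1 hl0 hex hex3 hB hR1 hR2 hy0 hcube hx1
    h4x h8y
  have hX0 : (0 : ℝ) ≤ (1 / 2) ^ (r ^ 3 + 4) := by positivity
  have hXX : 16 * (1 / 2 : ℝ) ^ (r ^ 3 + 4) = (1 / 2) ^ r ^ 3 := by
    rw [pow_add]
    norm_num
    ring
  have hX1 : ((1 : ℝ) / 2) ^ r ^ 3 ≤ 1 := pow_le_one₀ (by norm_num) (by norm_num)
  generalize (1 / 2 : ℝ) ^ (r ^ 3 + 4) = X at *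
  have r1 : 2 ^ (2 * l) * e₁ ≤ X := by
    rw [he₁, c128b, hw]
    refine le_trans (le_of_eq ?_) t1
    push_cast
    ring
  have r2 : ε₂ ≤ 3 * X := by
    rw [hw] at t3
    rw [hε₂, hL, c128, hw]
    have e : 1000 * ((4 ^ r ^ 2 : ℕ) : ℝ) ^ 2 * ((R : ℝ) / 2 ^ l *
        2 ^ (2 * r ^ 3 + 8 * r ^ 2 + 7 * r + 28) +
        √(2 * 2 ^ (2 * r ^ 3 + 8 * r ^ 2 + 7 * r + 28) / 2 ^ n) +
        2 ^ (2 * r ^ 3 + 8 * r ^ 2 + 7 * r + 28) / 2 ^ n) =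
        ((1000 * (4 ^ r ^ 2) ^ 2 * (R * 2 ^ (2 * r ^ 3 + 8 * r ^ 2 + 7 * r + 28)) : ℕ) : ℝ) /
        2 ^ l + 1000 * ((4 ^ r ^ 2 : ℕ) : ℝ) ^ 2 *
        √(2 * (2 : ℝ) ^ (2 * r ^ 3 + 8 * r ^ 2 + 7 * r + 28) / 2 ^ n) +
        ((1000 * (4 ^ r ^ 2) ^ 2 * 2 ^ (2 * r ^ 3 + 8 * r ^ 2 + 7 * r + 28) : ℕ) : ℝ) /
        2 ^ n := by
      push_cast
      ring
    rw [e]
    linarith
  clear t1 t2 t3 t4
  refine ⟨?_, ?_, ?_, ?_, ?_⟩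
  · rw [c128b, hw]
    exact_mod_cast t0
  · linarith
  · linarith
  · rw [← hXX]
    linarith
  · have hYY : (1 : ℝ) / 2 ^ 2 ^ (r + 3) = 8 * (1 / 2) ^ (2 ^ (r + 3) + 3) := by
      rw [pow_add, one_div_pow]
      norm_num
      ring
    have hY0 : (0 : ℝ) ≤ (1 / 2) ^ (2 ^ (r + 3) + 3) := by positivity
    rw [hYY, c128b, hSS]
    generalize (1 / 2 : ℝ) ^ (2 ^ (r + 3) + 3) = Y at *
    push_cast at u1 u2 u3 ⊢
    refine le_trans (le_of_eq ?_) (nur_fin Y _ _ _ _ _ hY0 u1 u2 u3 u4 u5)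
    ring

end Pool.Agent.H86.XX
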